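import Mathlib

/-!
# E2x brick TPART: the part on finite groups
-/

set_option autoImplicit false

namespace Pool.Agent.K3h57.E2

/-- the cyclic group of order `c` embeds in the one of order `n` if `c` divides `n` -/
theorem zmod_embed (c n : ℕ) (hn : n ≠ 0) (h : c ∣ n) :
    ∃ φ : ZMod c →+ ZMod n, Function.Injective φ := by
  obtain ⟨d, rfl⟩ := h
  have hd : (d : ℤ) ≠ 0 := by
    rintro h0
    apply hn
    have : d = 0 := by exact_mod_cast h0
    rw [this, mul_zero]
  refine ⟨ZMod.lift c ⟨zmultiplesHom (ZMod (c * d)) (d : ZMod (c * d)), ?_⟩, ?_⟩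
  · rw [zmultiplesHom_apply, natCast_zsmul, nsmul_eq_mul, ← Nat.cast_mul, ZMod.natCast_self]
  · rw [ZMod.lift_injective]
    intro m hm
    change m • (d : ZMod (c * d)) = 0 at hm
    rw [zsmul_eq_mul] at hm
    have h1 : (((m * d : ℤ)) : ZMod (c * d)) = 0 := by
      push_cast
      exact hm
    rw [ZMod.intCast_zmod_eq_zero_iff_dvd] at h1
    push_cast at h1
    have h2 : (c : ℤ) ∣ m := Int.dvd_of_mul_dvd_mul_right hd h1
    rwa [ZMod.intCast_zmod_eq_zero_iff_dvd]

theorem embed {M : Type} [CommGroup M] {k : Type} [Field k] (n : ℕ) (hn : n ≠ 0) (ρ : M →* kˣ)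
    (h : ∀ x, ρ x ^ n = 1) : ∃ g : M →* Multiplicative (ZMod n), g.ker = ρ.ker := by
  have : NeZero n := ⟨hn⟩
  have hdvd : Nat.card (rootsOfUnity n k) ∣ n := by
    rw [← IsCyclic.exponent_eq_card]
    apply Monoid.exponent_dvd_of_forall_pow_eq_one
    rintro ⟨x, hx⟩
    exact Subtype.ext hx
  obtain ⟨φ, hφ⟩ := zmod_embed _ n hn hdvd
  obtain ⟨ρ', hρ'⟩ : ∃ ρ' : M →* rootsOfUnity n k, ∀ x, (ρ' x : kˣ) = ρ x :=
    ⟨ρ.codRestrict (rootsOfUnity n k) (fun x => h x), fun x => rfl⟩
  refine ⟨(AddMonoidHom.toMultiplicative φ).comp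
    ((zmodCyclicMulEquiv (G := rootsOfUnity n k) inferInstance).symm.toMonoidHom.comp ρ'), ?_⟩
  ext x
  rw [MonoidHom.mem_ker, MonoidHom.mem_ker, MonoidHom.comp_apply, MonoidHom.comp_apply]
  constructor
  · intro h1
    have h2 : Function.Injective (AddMonoidHom.toMultiplicative φ) := hφ
    have h3 := h2 (h1.trans (map_one _).symm)
    have h4 : ρ' x = 1 := by
      apply (zmodCyclicMulEquiv (G := rootsOfUnity n k) inferInstance).symm.injective
      rw [map_one]
      exact h3
    rw [← hρ', h4]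
    rfl
  · intro h1
    have h4 : ρ' x = 1 := Subtype.ext ((hρ' x).trans h1)
    rw [h4, map_one, map_one]

theorem grp {M : Type} [CommGroup M] {ι : Type} [Fintype ι] [DecidableEq ι] (n : ι → ℕ)
    (hn : ∀ i, n i ≠ 0) (g : ∀ i, M →* Multiplicative (ZMod (n i))) (s : ℕ)
    (hs : ((powMonoidHom 2 : M →* M).range).index = 2 ^ s) :
    ∃ b : ℕ, (⨅ i, (g i).ker).index * b = ∏ i, n i ∧
      2 ^ (Nat.card {i // Even (n i)} - s) ∣ b := by
  have hne : ∀ i, NeZero (n i) := fun i => ⟨hn i⟩
  let f : M →* (∀ i, Multiplicative (ZMod (n i))) := MonoidHom.pi g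
  have hker : f.ker = ⨅ i, (g i).ker := by
    ext x
    rw [MonoidHom.mem_ker, Subgroup.mem_iInf]
    constructor
    · intro h i
      exact congrFun h i
    · intro h
      funext i
      exact h i
  have hcard : Nat.card (∀ i, Multiplicative (ZMod (n i))) = ∏ i, n i := by
    rw [Nat.card_pi]
    refine Finset.prod_congr rfl fun i _ => ?_
    exact (Nat.card_congr Multiplicative.toAdd).trans (Nat.card_zmod _)
  refine ⟨f.range.index, ?_, ?_⟩
  · rw [← hker, Subgroup.index_ker, Subgroup.card_mul_index, hcard]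
  · let h : (∀ i, Multiplicative (ZMod (n i))) →* (∀ _i : {i // Even (n i)}, Multiplicative (ZMod 2)) :=
      MonoidHom.pi fun i => (AddMonoidHom.toMultiplicative
        (ZMod.castHom (even_iff_two_dvd.1 i.2) (ZMod 2)).toAddMonoidHom).comp
          (Pi.evalMonoidHom _ i.1)
    have hsurj : Function.Surjective h := by
      intro e
      have h1 : ∀ i : {i // Even (n i)}, ∃ z : ZMod (n i), ZMod.castHom (even_iff_two_dvd.1 i.2)
          (ZMod 2) z = Multiplicative.toAdd (e i) := fun i =>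
        ZMod.castHom_surjective (even_iff_two_dvd.1 i.2) _
      choose z hz using h1
      refine ⟨fun i => if hi : Even (n i) then Multiplicative.ofAdd (z ⟨i, hi⟩) else 1, ?_⟩
      funext i
      change Multiplicative.ofAdd (ZMod.castHom (even_iff_two_dvd.1 i.2) (ZMod 2)
        (Multiplicative.toAdd (if hi : Even (n i) then Multiplicative.ofAdd (z ⟨i, hi⟩) else 1))) = e i
      rw [dif_pos i.2, toAdd_ofAdd, hz]
      rfl
    refine dvd_trans ?_ (Subgroup.index_map_dvd f.range hsurj)
    rw [← MonoidHom.range_comp]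
    have h2 : Nat.card (h.comp f).range * (h.comp f).range.index = 2 ^ Nat.card {i // Even (n i)} := by
      rw [Subgroup.card_mul_index, Nat.card_fun]
      congr 1
      exact (Nat.card_congr Multiplicative.toAdd).trans (Nat.card_zmod 2)
    have h3 : Nat.card (h.comp f).range ∣ 2 ^ s := by
      rw [← Subgroup.index_ker, ← hs]
      apply Subgroup.index_dvd_of_le
      rintro _ ⟨x, rfl⟩
      rw [MonoidHom.mem_ker, powMonoidHom_apply, map_pow]
      funext i
      have h4 : ∀ y : Multiplicative (ZMod 2), y ^ 2 = 1 := by decide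
      exact h4 _
    obtain ⟨j, hj, hj'⟩ := (Nat.dvd_prime_pow Nat.prime_two).1 h3
    have h5 : (h.comp f).range.index ∣ 2 ^ Nat.card {i // Even (n i)} := ⟨_, by rw [← h2, mul_comm]⟩
    obtain ⟨i, hi, hi'⟩ := (Nat.dvd_prime_pow Nat.prime_two).1 h5
    rw [hj', hi', ← pow_add] at h2
    have h6 := Nat.pow_right_injective le_rfl h2
    rw [hi']
    apply pow_dvd_pow
    omega

end Pool.Agent.K3h57.E2
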