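import Mathlib

/-!
# E2x brick TPART: residues modulo a prime ideal
-/

set_option autoImplicit false

open NumberField IsDedekindDomain

namespace Pool.Agent.K3h57.E2

variable {H : Type} [Field H] [NumberField H]

/-- fractions with denominator prime to `w` -/
theorem local_rep (w : HeightOneSpectrum (𝓞 H)) (x : H) (hx : w.valuation H x ≤ 1) :
    ∃ b s : 𝓞 H, s ∉ w.asIdeal ∧ x * (algebraMap (𝓞 H) H s) = algebraMap (𝓞 H) H b := by
  obtain ⟨n, m, hm, rfl⟩ := IsFractionRing.div_surjective (A := 𝓞 H) x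
  have hm0 : m ≠ 0 := nonZeroDivisors.ne_zero hm
  have hm1 : (algebraMap (𝓞 H) H m) ≠ 0 := by
    rw [Ne, FaithfulSMul.algebraMap_eq_zero_iff]
    exact hm0
  have hsp : (Ideal.span {m} : Ideal (𝓞 H)) ≠ 0 := by
    rw [Ne, Ideal.zero_eq_bot, Ideal.span_singleton_eq_bot]
    exact hm0
  obtain ⟨e, J, hJv, hJ⟩ := WfDvdMonoid.max_power_factor hsp w.irreducible
  have hme : m ∈ w.asIdeal ^ e := by
    rw [← Ideal.dvd_span_singleton, hJ]
    exact dvd_mul_right _ _
  have hne : n ∈ w.asIdeal ^ e := by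
    rw [← w.intValuation_le_pow_iff_mem, ← w.valuation_of_algebraMap (K := H)]
    rw [← w.intValuation_le_pow_iff_mem, ← w.valuation_of_algebraMap (K := H)] at hme
    refine le_trans ?_ hme
    rw [map_div₀] at hx
    rwa [div_le_one₀ (zero_lt_iff.2 ((Valuation.ne_zero_iff _).2 hm1))] at hx
  have hJv' : ¬ J ≤ w.asIdeal := fun h => hJv (Ideal.dvd_iff_le.mpr h)
  obtain ⟨s, hsJ, hsv⟩ := Set.not_subset.mp hJv'
  have hmem : n * s ∈ Ideal.span {m} := by
    rw [hJ]
    exact Ideal.mul_mem_mul hne hsJ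
  obtain ⟨b, hb⟩ := Ideal.mem_span_singleton'.mp hmem
  refine ⟨b, s, hsv, ?_⟩
  have h1 : (algebraMap (𝓞 H) H b) * (algebraMap (𝓞 H) H m) =
      (algebraMap (𝓞 H) H n) * (algebraMap (𝓞 H) H s) := by
    rw [← map_mul, ← map_mul, hb]
  rw [div_mul_eq_mul_div, div_eq_iff hm1, h1]

/-- the congruence of Frobenius for the units at `w` -/
theorem frob_local {G : Type} [Group G] [MulSemiringAction G H] (w : HeightOneSpectrum (𝓞 H))
    (σ : G) (N : ℕ)
    (hF : ∀ x : 𝓞 H, w.valuation H (σ • (x : H) - (x : H) ^ N) < 1) (x : H)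
    (hx : w.valuation H x = 1) : w.valuation H (σ • x - x ^ N) < 1 := by
  obtain ⟨b, s, hs, hbs⟩ := local_rep w x hx.le
  have hs1 : w.valuation H (algebraMap (𝓞 H) H s) = 1 := by
    rw [HeightOneSpectrum.valuation_eq_one_iff_notMem]
    exact hs
  have hb1 : w.valuation H (algebraMap (𝓞 H) H b) = 1 := by
    rw [← hbs, map_mul, hx, hs1, one_mul]
  have hs2 : w.valuation H (σ • (algebraMap (𝓞 H) H s)) = 1 := by
    have h1 := hF s
    have h2 : w.valuation H ((algebraMap (𝓞 H) H s) ^ N) = 1 := by rw [map_pow, hs1, one_pow]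
    have h3 : σ • (algebraMap (𝓞 H) H s) = (σ • (algebraMap (𝓞 H) H s) -
        (algebraMap (𝓞 H) H s) ^ N) + (algebraMap (𝓞 H) H s) ^ N := by ring
    rw [h3, Valuation.map_add_eq_of_lt_right, h2]
    rw [h2]
    exact h1
  have hs0 : (algebraMap (𝓞 H) H s) ≠ 0 := by
    intro h0
    rw [h0, map_zero] at hs1
    exact zero_ne_one hs1
  have hσs0 : σ • (algebraMap (𝓞 H) H s) ≠ 0 := by
    intro h0
    rw [h0, map_zero] at hs2
    exact zero_ne_one hs2
  have e1 : σ • x * σ • (algebraMap (𝓞 H) H s) = σ • (algebraMap (𝓞 H) H b) := by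
    rw [← smul_mul', hbs]
  have e2 : (σ • x - x ^ N) * (σ • (algebraMap (𝓞 H) H s) * (algebraMap (𝓞 H) H s) ^ N) =
      (σ • (algebraMap (𝓞 H) H b) - (algebraMap (𝓞 H) H b) ^ N) * (algebraMap (𝓞 H) H s) ^ N -
      (algebraMap (𝓞 H) H b) ^ N *
        (σ • (algebraMap (𝓞 H) H s) - (algebraMap (𝓞 H) H s) ^ N) := by
    rw [← e1, ← hbs, mul_pow]
    ring
  have h1 : w.valuation H ((σ • x - x ^ N) *
      (σ • (algebraMap (𝓞 H) H s) * (algebraMap (𝓞 H) H s) ^ N)) =
      w.valuation H (σ • x - x ^ N) := by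
    rw [map_mul, map_mul, map_pow, hs1, hs2, one_pow, mul_one, mul_one]
  rw [← h1, e2]
  refine lt_of_le_of_lt (Valuation.map_sub _ _ _) (max_lt ?_ ?_)
  · rw [map_mul, map_pow, hs1, one_pow, mul_one]
    exact hF b
  · rw [map_mul, map_pow, hb1, one_pow, one_mul]
    exact hF s

/-- the residue homomorphism of a group of units at `w` -/
theorem residue (w : HeightOneSpectrum (𝓞 H)) (U : Subgroup Hˣ)
    (hU : ∀ x ∈ U, w.valuation H (x : H) = 1) : ∃ (k : Type) (_ : Field k) (ρ : U →* kˣ),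
      ∀ x : U, ρ x = 1 ↔ w.valuation H (((x : Hˣ) : H) - 1) < 1 := by
  let A := (w.valuation H).valuationSubring
  have hA : ∀ x ∈ U, x ∈ A.unitGroup := fun x hx =>
    (Valuation.mem_unitGroup_iff H (w.valuation H) x).2 (hU x hx)
  refine ⟨IsLocalRing.ResidueField A, inferInstance,
    A.unitGroupToResidueFieldUnits.comp (Subgroup.inclusion hA), fun x => ?_⟩
  rw [MonoidHom.comp_apply, ← MonoidHom.mem_ker, ValuationSubring.ker_unitGroupToResidueFieldUnits,
    Subgroup.mem_comap]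
  exact ((Valuation.isEquiv_valuation_valuationSubring (w.valuation H)).lt_one_iff_lt_one).symm

end Pool.Agent.K3h57.E2
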