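import Pool.Agent.K3h56.E2.Stm2
import Pool.Agent.K3h25.RS.Trans
import Pool.Agent.K3h57.E2.Grp
import Pool.Agent.K3h57.E2.Val

/-!
# E2x brick TPART: the index of `U_{S,T}` in the group of the `S`-units
-/

set_option autoImplicit false

open NumberField IsDedekindDomain

namespace Pool.Agent.K3h57.E2

open Pool.Agent.K3h30.RS Pool.Agent.K3h56.E2

section

variable {F H G : Type} [Field F] [NumberField F] [Field H] [NumberField H] [Algebra F H]
  [CommGroup G] [Finite G] [MulSemiringAction G H]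

theorem one_lt_norm (v : HeightOneSpectrum (𝓞 F)) : 1 < Ideal.absNorm v.asIdeal := by
  rw [Nat.one_lt_iff_ne_zero_and_ne_one]
  refine ⟨fun h => v.ne_bot (Ideal.absNorm_eq_zero_iff.1 h), fun h => ?_⟩
  exact v.isPrime.ne_top (Ideal.absNorm_eq_one_iff.1 h)

/-- a prime ideal over `v ∉ S` is not over `S` -/
theorem not_above {S : Set (HeightOneSpectrum (𝓞 F))} {v : HeightOneSpectrum (𝓞 F)}
    (hv : v ∉ S) {w : HeightOneSpectrum (𝓞 H)} (hw : Above {v} w) : ¬ Above S w := by
  rintro ⟨v', hv', h'⟩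
  obtain ⟨v'', hv'', h''⟩ := hw
  rw [Set.mem_singleton_iff] at hv''
  apply hv
  have : v' = v := by
    apply HeightOneSpectrum.ext
    rw [← h', ← hv'', ← h'']
  rwa [← this]

/-- the exponent at `v` -/
noncomputable def ex (D : RubinData F H G) (χ : G →* ℂˣ) (v : HeightOneSpectrum (𝓞 F)) : ℕ :=
  ((Ideal.absNorm v.asIdeal : ℤ) - sgn χ (D.σ v)).toNat

theorem ex_cast (D : RubinData F H G) (χ : G →* ℂˣ) (v : HeightOneSpectrum (𝓞 F)) :
    ((ex D χ v : ℕ) : ℤ) = (Ideal.absNorm v.asIdeal : ℤ) - sgn χ (D.σ v) := by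
  unfold ex
  apply Int.toNat_of_nonneg
  have h1 := one_lt_norm v
  unfold sgn
  split_ifs <;> omega

theorem ex_ne (D : RubinData F H G) (χ : G →* ℂˣ) (v : HeightOneSpectrum (𝓞 F)) :
    ex D χ v ≠ 0 := by
  have h := ex_cast D χ v
  have h1 := one_lt_norm v
  intro h0
  rw [h0] at h
  unfold sgn at h
  split_ifs at h <;> omega

theorem ex_even (D : RubinData F H G) (χ : G →* ℂˣ) (v : HeightOneSpectrum (𝓞 F)) :
    Even (ex D χ v) ↔ Odd (Ideal.absNorm v.asIdeal) := by
  have h := ex_cast D χ v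
  have h1 := one_lt_norm v
  rw [Nat.even_iff, Nat.odd_iff]
  unfold sgn at h
  split_ifs at h <;> omega

/-- the congruence modulo the prime ideal -/
theorem cong (D : RubinData F H G) (χ : G →* ℂˣ) {T : Finset (HeightOneSpectrum (𝓞 F))}
    (hT : Disjoint D.S T) {v : HeightOneSpectrum (𝓞 F)} (hv : v ∈ T)
    {w : HeightOneSpectrum (𝓞 H)} (hw : Above {v} w) {x : Hˣ} (hx : x ∈ part (D.U ∅) χ) :
    w.valuation H ((x : H) ^ ex D χ v - 1) < 1 := by
  have hvS : v ∉ D.S := fun h => Finset.disjoint_left.1 hT h hv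
  have hwS : ¬ Above (D.S : Set (HeightOneSpectrum (𝓞 F))) w := not_above (by simpa using hvS) hw
  obtain ⟨hxU, h1, h2⟩ := hx
  have hx1 : w.valuation H (x : H) = 1 := hxU.1 w hwS
  have hfr := frob_local w (D.σ v) (Ideal.absNorm v.asIdeal) (D.frob v hvS w hw) (x : H) hx1
  have hx0 : (x : H) ≠ 0 := x.ne_zero
  have hN := one_lt_norm v
  by_cases hχ : χ (D.σ v) = 1
  · have e1 : D.σ v • (x : H) = (x : H) := congrArg Units.val (h1 _ hχ)
    have e2 : ex D χ v = Ideal.absNorm v.asIdeal - 1 := by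
      have := ex_cast D χ v
      unfold sgn at this
      rw [if_pos hχ] at this
      omega
    obtain ⟨m, hm⟩ : ∃ m, Ideal.absNorm v.asIdeal = m + 1 := ⟨_, (Nat.succ_pred_eq_of_pos (by omega)).symm⟩
    rw [e1, hm] at hfr
    rw [e2, hm, Nat.add_sub_cancel]
    have e3 : (x : H) - (x : H) ^ (m + 1) = -((x : H) * ((x : H) ^ m - 1)) := by ring
    rw [e3, Valuation.map_neg, map_mul, hx1, one_mul] at hfr
    exact hfr
  · have e1 : D.σ v • (x : H) = (x : H)⁻¹ := by
      have := congrArg Units.val (h2 _ hχ)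
      rw [Units.val_inv_eq_inv_val] at this
      exact this
    have e2 : ex D χ v = Ideal.absNorm v.asIdeal + 1 := by
      have := ex_cast D χ v
      unfold sgn at this
      rw [if_neg hχ] at this
      omega
    rw [e1] at hfr
    rw [e2]
    have e3 : (x : H)⁻¹ - (x : H) ^ Ideal.absNorm v.asIdeal =
        -((x : H)⁻¹ * ((x : H) ^ (Ideal.absNorm v.asIdeal + 1) - 1)) := by
      rw [pow_succ]
      field_simp
      ring
    rw [e3, Valuation.map_neg, map_mul, map_inv₀, hx1, inv_one, one_mul] at hfr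
    exact hfr

end

theorem t_TPART : S_TPART := by
  intro F H G _ _ _ _ _ _ _ _ _ D χ hG T hT r hr
  classical
  -- the chosen prime ideals
  have hex : ∀ v : T, ∃ w : HeightOneSpectrum (𝓞 H), Above {(v : HeightOneSpectrum (𝓞 F))} w :=
    fun v => (Pool.Agent.K3h25.RS.t_OVER F H v).1
  choose w hw using hex
  have hval : ∀ v : T, ∀ x ∈ part (D.U ∅) χ, (w v).valuation H (x : H) = 1 := by
    intro v x hx
    apply hx.1.1
    apply not_above _ (hw v)
    have := fun h => Finset.disjoint_left.1 hT h v.2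
    simpa using this
  -- the homomorphisms
  have hg : ∀ v : T, ∃ g : part (D.U ∅) χ →* Multiplicative (ZMod (ex D χ v)),
      ∀ x : part (D.U ∅) χ, x ∈ g.ker ↔ (w v).valuation H (((x : Hˣ) : H) - 1) < 1 := by
    intro v
    obtain ⟨k, _, ρ, hρ⟩ := residue (w v) (part (D.U ∅) χ) (hval v)
    obtain ⟨g, hg⟩ := embed (ex D χ v) (ex_ne D χ v) ρ (fun x => by
      rw [← map_pow, hρ]
      have h1 := cong D χ hT v.2 (hw v) x.2
      have e : (((x ^ ex D χ v : part (D.U ∅) χ) : Hˣ) : H) = ((x : Hˣ) : H) ^ ex D χ v := by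
        push_cast
        rfl
      rw [e]
      exact h1)
    refine ⟨g, fun x => ?_⟩
    rw [hg, MonoidHom.mem_ker, hρ]
  choose g hg using hg
  have hs : ((powMonoidHom 2 : part (D.U ∅) χ →* part (D.U ∅) χ).range).index = 2 ^ (r + 1) := by
    rw [← hr]
    unfold Subgroup.relIndex
    congr 1
    ext x
    rw [Subgroup.mem_subgroupOf, Subgroup.mem_map, MonoidHom.mem_range]
    constructor
    · rintro ⟨y, rfl⟩
      exact ⟨(y : Hˣ), y.2, rfl⟩
    · rintro ⟨y, hy, hyx⟩
      exact ⟨⟨y, hy⟩, Subtype.ext hyx⟩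
  obtain ⟨b, hb, hb2⟩ := grp (M := part (D.U ∅) χ) (fun v : T => ex D χ v)
    (fun v => ex_ne D χ v) g (r + 1) hs
  have hker : (⨅ v, (g v).ker) = (part (D.U T) χ).subgroupOf (part (D.U ∅) χ) := by
    ext x
    rw [Subgroup.mem_iInf, Subgroup.mem_subgroupOf]
    constructor
    · intro h
      refine ⟨⟨x.2.1.1, fun w' hw' => ?_⟩, x.2.2⟩
      obtain ⟨v, hv, hvw⟩ := hw'
      have hvT : v ∈ T := by simpa using hv
      have hw'v : Above {v} w' := ⟨v, rfl, hvw⟩
      obtain ⟨γ, hγ⟩ := (Pool.Agent.K3h25.RS.t_TRANS F H G v (w ⟨v, hvT⟩) (hw ⟨v, hvT⟩)).2 w' hw'v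
      have h1 := (hg ⟨v, hvT⟩ x).1 (h ⟨v, hvT⟩)
      have hx1 := hval ⟨v, hvT⟩ x x.2
      rw [hγ, smul_sub, smul_one]
      by_cases hχ : χ γ = 1
      · have e1 : γ • ((x : Hˣ) : H) = ((x : Hˣ) : H) := congrArg Units.val (x.2.2.1 γ hχ)
        rw [e1]
        exact h1
      · have e1 : γ • ((x : Hˣ) : H) = ((x : Hˣ) : H)⁻¹ := by
          have := congrArg Units.val (x.2.2.2 γ hχ)
          rw [Units.val_inv_eq_inv_val] at this
          exact this
        have hx0 : ((x : Hˣ) : H) ≠ 0 := (x : Hˣ).ne_zero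
        have e2 : ((x : Hˣ) : H)⁻¹ - 1 = -(((x : Hˣ) : H)⁻¹ * (((x : Hˣ) : H) - 1)) := by
          field_simp
          ring
        rw [e1, e2, Valuation.map_neg, map_mul, map_inv₀, hx1, inv_one, one_mul]
        exact h1
    · intro h v
      rw [hg]
      exact h.1.2 (w v) ⟨(v : HeightOneSpectrum (𝓞 F)), v.2, (hw v).choose_spec.2 ▸ by
        have := (hw v).choose_spec.1
        rw [Set.mem_singleton_iff] at this
        rw [this]⟩
  refine ⟨b, ?_, ?_⟩
  · have h1 : (part (D.U T) χ).relIndex (part (D.U ∅) χ) = (⨅ v, (g v).ker).index := by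
      rw [hker]
      rfl
    rw [h1]
    have h2 := congrArg (Nat.cast : ℕ → ℤ) hb
    push_cast at h2
    rw [h2, ← Finset.prod_coe_sort T]
    refine Finset.prod_congr rfl fun v _ => ?_
    exact ex_cast D χ v
  · have h3 : oddCard T = Nat.card {v : T // Even (ex D χ v)} := by
      unfold oddCard
      rw [Nat.card_eq_fintype_card, Fintype.card_subtype, Finset.card_filter, Finset.card_filter,
        ← Finset.sum_coe_sort T]
      refine Finset.sum_congr rfl fun v _ => ?_
      simp only [ex_even]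
    rw [h3]
    exact hb2

end Pool.Agent.K3h57.E2
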